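import Pool.Agent.N242.TG.Main
import Pool.Agent.N147.TG.Sign
import Pool.Agent.N147.TG.Upper
import Pool.Agent.N712.TG.Beam
import Pool.Agent.N721.TG.Tgcc

open MeasureTheory Set Filter Topology Pool.Agent.N242.TG

namespace Pool.Agent.Results.MP_af75b4_an.TubesDoNotSuffice

theorem conc {p : ℝ} (hp2 : 2 < p) (hp4 : p < 4) {ε : ℝ} (hε : 0 < ε) :
    ∃ lam : ℝ, 1 ≤ lam ∧ ∃ e : Sph 2 → ℂ, IsEigen 2 lam e ∧
      ∫ x in Aset, ‖e x‖ ^ p ∂(vol 2) < ε * ∫ x, ‖e x‖ ^ p ∂(vol 2) :=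
  core Pool.Agent.N147.TG.t_Upper t_lower Pool.Agent.N147.TG.t_Sign Pool.Agent.N712.TG.t_BEAM hp2 hp4 hε

theorem notLS {p : ℝ} (hp2 : 2 < p) (hp4 : p < 4) : ¬ LS 2 p (fun _ => Aset) := by
  rintro ⟨C, hC, h⟩
  obtain ⟨lam, hlam, e, he, hlt⟩ := conc hp2 hp4 hC
  have := h lam hlam e he
  linarith

/-- There is an open subset U of the two-dimensional sphere such that the constant family U satisfies the tubular
geometric control condition, but for every p in (2,4) the quotient of the p-th powers of the norms of eigenfunctions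
on U and on the sphere tends to zero along a sequence; in particular Q1 has a negative answer. -/
theorem result :
    (∃ U : Set (Sph 2), IsOpen U ∧ TGCC 2 (fun _ => U) ∧
      ∀ p : ℝ, 2 < p → p < 4 →
        ¬ LS 2 p (fun _ => U) ∧
        ∃ (lam : ℕ → ℝ) (e : ℕ → Sph 2 → ℂ),
          (∀ k, 1 ≤ lam k ∧ IsEigen 2 (lam k) (e k) ∧ e k ≠ 0) ∧
          Tendsto (fun k => (∫ x in U, ‖e k x‖ ^ p ∂(vol 2)) / ∫ x, ‖e k x‖ ^ p ∂(vol 2))
            atTop (𝓝 0)) ∧
    ¬ Q1 := by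
  refine ⟨⟨Aset, isOpen_Aset, Pool.Agent.N721.TG.t_tgcc, ?_⟩, ?_⟩
  · intro p hp2 hp4
    refine ⟨notLS hp2 hp4, ?_⟩
    choose lam hlam e he hlt using fun k : ℕ => conc hp2 hp4 (ε := 1 / ((k : ℝ) + 1)) (by positivity)
    refine ⟨lam, e, fun k => ⟨hlam k, he k, ?_⟩, ?_⟩
    · intro h0
      have := hlt k
      rw [h0] at this
      have hp : p ≠ 0 := by linarith
      simp [Real.zero_rpow hp] at this
    · have hnn : ∀ k, 0 ≤ ∫ x in Aset, ‖e k x‖ ^ p ∂(vol 2) := fun k =>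
        integral_nonneg fun x => by positivity
      have hpos : ∀ k, 0 < ∫ x, ‖e k x‖ ^ p ∂(vol 2) := by
        intro k
        have h1 := lt_of_le_of_lt (hnn k) (hlt k)
        exact (mul_pos_iff_of_pos_left (by positivity)).1 h1
      refine squeeze_zero (fun k => div_nonneg (hnn k) (hpos k).le) (fun k => ?_)
        (tendsto_one_div_add_atTop_nhds_zero_nat (𝕜 := ℝ))
      rw [div_le_iff₀ (hpos k)]
      exact (hlt k).le
  · intro h
    refine notLS (p := 3) (by norm_num) (by norm_num) ?_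
    exact h 2 le_rfl 3 (by norm_num) (by norm_num) (fun _ => Aset)
      (fun _ => isOpen_Aset.measurableSet) Pool.Agent.N721.TG.t_tgcc

end Pool.Agent.Results.MP_af75b4_an.TubesDoNotSuffice
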